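import Pool.Agent.helper52.EU.SpecI

/-!
# Project eu (MP_ad8ced_nt): row NCH
-/

set_option autoImplicit false

open Finset

namespace Pool.Agent.EU

open Pool.Agent.FI Pool.Agent.FJ

theorem NCH : NCH_stmt := by
  classical
  intro D R₀ hD
  have hne : NeZero D := ⟨by omega⟩
  set T : Finset (Σ r : ℕ, DirichletCharacter ℂ r) :=
    (Icc 1 R₀).sigma (fun r => (univ : Finset (DirichletCharacter ℂ r))) with hT
  set g : DirichletCharacter ℂ D → (Σ r : ℕ, DirichletCharacter ℂ r) :=
    fun χ => ⟨χ.conductor, χ.primitiveCharacter⟩ with hg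
  have hinj : Function.Injective g := by
    have hleft : ∀ χ : DirichletCharacter ℂ D,
        (fun i : (Σ r : ℕ, DirichletCharacter ℂ r) =>
          if h : i.1 ∣ D then DirichletCharacter.changeLevel h i.2 else 1) (g χ) = χ := by
      intro χ
      simp only [hg]
      rw [dif_pos χ.conductor_dvd_level]
      exact χ.changeLevel_primitiveCharacter
    intro χ χ' h
    rw [← hleft χ, ← hleft χ', h]
  have h1 : ({χ : DirichletCharacter ℂ D | χ.conductor ≤ R₀} : Finset (DirichletCharacter ℂ D)).card ≤ T.card := by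
    refine Finset.card_le_card_of_injOn g ?_ (hinj.injOn)
    intro χ hχ
    have h2 := (Finset.mem_filter.1 hχ).2
    rw [hT]
    refine Finset.mem_coe.2 (Finset.mem_sigma.2 ⟨Finset.mem_Icc.2 ⟨?_, h2⟩, Finset.mem_univ _⟩)
    exact Nat.one_le_iff_ne_zero.2 χ.conductor_ne_zero
  have h3 : T.card ≤ R₀ ^ 2 := by
    rw [hT, Finset.card_sigma]
    have h4 : ∀ r ∈ Icc 1 R₀, (univ : Finset (DirichletCharacter ℂ r)).card ≤ R₀ := by
      intro r hr
      have hr1 := (Finset.mem_Icc.1 hr)
      have hne' : NeZero r := ⟨by omega⟩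
      have h5 := DirichletCharacter.card_eq_totient_of_hasEnoughRootsOfUnity ℂ r
      rw [Nat.card_eq_fintype_card] at h5
      rw [Finset.card_univ, h5]
      exact (Nat.totient_le r).trans hr1.2
    refine (Finset.sum_le_card_nsmul _ _ _ h4).trans ?_
    rw [Nat.card_Icc, smul_eq_mul, pow_two, Nat.add_sub_cancel]
  exact h1.trans h3

end Pool.Agent.EU
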